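import Pool.Agent.Y223.G.Stm

/-! Project G, part G-MODEL: an atlas gives a model. -/

set_option autoImplicit false

namespace Pool.Agent.Y349.G

open Pool.Agent.Y223.G

section model

variable {k K : Type} [CommRing k] [Field K] [Algebra k K]

variable {P : Prop} {M₀ : Submodule k K} {Kf : Subfield K}

/-- The construction of a model from an atlas with stabilisers of order one. -/
theorem model_core {T : Type} [Finite T] {C : T → Subalgebra k (LP K)} {H : T → K}
    (h : AtlasG P M₀ Kf 1 C H) (hreg : ∀ t, IsRegularRing (d0 (C t)))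
    (G : T → Finset K) (hG : ∀ t, Algebra.adjoin k (G t : Set K) = d0 (C t)) (M : ℕ)
    (hM : ∀ (p : Σ t, {x // x ∈ G t}) (t : T), hm 0 ((H p.1 / H t) ^ M * p.2.1) ∈ C t)
    (L : Finset K) (hLK : ∀ l ∈ L, l ∈ Kf) (hL : ∀ l ∈ L, ∀ t, hm 0 (l / H t ^ M) ∈ C t)
    (hmo : P → ∃ n : ℕ, 1 ≤ n ∧ (∀ t, H t ^ M ∈ sat (M₀ ^ n)) ∧
      (∀ p : (Σ t, {x // x ∈ G t}), H p.1 ^ M * p.2.1 ∈ sat (M₀ ^ n)) ∧
      (∀ l ∈ L, l ∈ sat (M₀ ^ n)) ∧
      ∀ m ∈ M₀ ^ n, ∃ s : k, s ≠ 0 ∧ s • m ∈ Submodule.span k (L : Set K)) :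
    ∃ (I : Type) (_ : Finite I) (z : I → K) (J : Set I), ModelG P M₀ Kf z J := by
  classical
  have : Fintype T := Fintype.ofFinite T
  have hGm : ∀ t, ∀ x ∈ G t, hm 0 x ∈ C t := by
    intro t x hx
    have : x ∈ d0 (C t) := by rw [← hG t]; exact Algebra.subset_adjoin hx
    exact this
  let z : (T ⊕ (Σ t, {x // x ∈ G t})) ⊕ {l // l ∈ L} → K :=
    Sum.elim (Sum.elim (fun t => H t ^ M) (fun p => H p.1 ^ M * p.2.1)) (fun l => l.1)
  have hz : ∀ t i, hm 0 (z i / z (Sum.inl (Sum.inl t))) ∈ C t := by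
    intro t i
    rcases i with (t' | p) | l
    · have e2 : hm 0 (H t' ^ M / H t ^ M) = hm 0 (H t' / H t) ^ M := by
        rw [hm_pow, mul_zero, div_pow]
      change hm 0 (H t' ^ M / H t ^ M) ∈ C t
      rw [e2]
      exact (C t).pow_mem (h.rt t t') M
    · have e2 : hm 0 (H p.1 ^ M * p.2.1 / H t ^ M) = hm 0 ((H p.1 / H t) ^ M * p.2.1) := by
        congr 1
        rw [div_pow]
        ring
      change hm 0 (H p.1 ^ M * p.2.1 / H t ^ M) ∈ C t
      rw [e2]
      exact hM p t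
    · exact hL l.1 l.2 t
  have hz0 : ∀ t, z (Sum.inl (Sum.inl t)) ≠ 0 := fun t => pow_ne_zero M (h.H0 t)
  have hch : ∀ t, Algebra.adjoin k (Set.range fun i => z i / z (Sum.inl (Sum.inl t))) =
      d0 (C t) := by
    intro t
    apply le_antisymm
    · rw [Algebra.adjoin_le_iff]
      rintro _ ⟨i, rfl⟩
      exact hz t i
    · rw [← hG t, Algebra.adjoin_le_iff]
      intro x hx
      apply Algebra.subset_adjoin
      refine ⟨Sum.inl (Sum.inr ⟨t, x, hx⟩), ?_⟩
      change H t ^ M * x / H t ^ M = x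
      have := pow_ne_zero M (h.H0 t)
      field_simp
  refine ⟨(T ⊕ (Σ t, {x // x ∈ G t})) ⊕ {l // l ∈ L}, inferInstance, z,
    Set.range fun t => Sum.inl (Sum.inl t), ?_⟩
  refine
    { zK := ?_
      z0 := ?_
      cv := ?_
      rg := ?_
      fr := ?_
      mo := ?_ }
  · rintro ((t | ⟨t, x, hx⟩) | l)
    · exact Kf.pow_mem (h.HK t) _
    · exact Kf.mul_mem (Kf.pow_mem (h.HK t) _) (h.inF _ _ _ (hGm t x hx))
    · exact hLK l.1 l.2
  · rintro _ ⟨t, rfl⟩
    exact hz0 t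
  · intro V hV
    obtain ⟨t, ht⟩ := h.cv V hV
    exact ⟨Sum.inl (Sum.inl t), ⟨t, rfl⟩, fun i => ht _ (hz t i)⟩
  · rintro _ ⟨t, rfl⟩
    rw [hch t]
    exact hreg t
  · rintro _ ⟨t, rfl⟩ x hx
    rw [hch t]
    obtain ⟨y, y', hy, hy', h0, hxy⟩ := h.fr t x hx
    exact ⟨y, hy, y', hy', h0, hxy⟩
  · intro hP
    obtain ⟨n, hn, h1, h2, h3, h4⟩ := hmo hP
    refine ⟨n, hn, ?_, ?_⟩
    · rintro ((t | p) | l)
      · exact h1 t
      · exact h2 p
      · exact h3 l.1 l.2
    · intro m hm'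
      obtain ⟨s, hs, hs'⟩ := h4 m hm'
      refine ⟨s, hs, Submodule.span_mono ?_ hs'⟩
      intro l hl
      exact ⟨Sum.inr ⟨l, hl⟩, rfl⟩

/-- Elements of the powers of the linear forms are regular on the charts, up to constants. -/
theorem pow_div_mem [IsDomain k] {C : Subalgebra k (LP K)} {N : Submodule k K} {a : K}
    (h : ∀ m ∈ N, ∃ s : k, s ≠ 0 ∧ hm 0 (s • (m / a)) ∈ C) (j : ℕ) :
    ∀ m ∈ N ^ j, ∃ s : k, s ≠ 0 ∧ hm 0 (s • (m / a ^ j)) ∈ C := by
  induction j with
  | zero =>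
    intro m hm'
    rw [pow_zero, Submodule.mem_one] at hm'
    obtain ⟨c, rfl⟩ := hm'
    refine ⟨1, one_ne_zero, ?_⟩
    rw [one_smul, pow_zero, div_one, ← algebraMap_LP]
    exact C.algebraMap_mem c
  | succ j ih =>
    intro m hm'
    rw [pow_succ] at hm'
    induction hm' using Submodule.mul_induction_on' with
    | mem_mul_mem x hx y hy =>
      obtain ⟨s, hs, h1⟩ := ih x hx
      obtain ⟨s', hs', h2⟩ := h y hy
      refine ⟨s * s', mul_ne_zero hs hs', ?_⟩
      have e : hm 0 ((s * s') • (x * y / a ^ (j + 1))) =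
          hm 0 (s • (x / a ^ j)) * hm 0 (s' • (y / a)) := by
        rw [hm_mul, add_zero, smul_mul_smul_comm]
        congr 2
        rw [pow_succ, mul_div_mul_comm]
      rw [e]
      exact C.mul_mem h1 h2
    | add x _ y _ hx hy =>
      obtain ⟨s, hs, h1⟩ := hx
      obtain ⟨s', hs', h2⟩ := hy
      refine ⟨s * s', mul_ne_zero hs hs', ?_⟩
      have e : hm 0 ((s * s') • ((x + y) / a ^ (j + 1))) =
          s' • hm 0 (s • (x / a ^ (j + 1))) + s • hm 0 (s' • (y / a ^ (j + 1))) := by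
        rw [smul_hm, smul_hm, ← hm_add]
        congr 1
        rw [smul_smul, smul_smul, mul_comm s' s, ← smul_add, add_div]
      rw [e]
      exact C.add_mem (C.smul_mem h1 _) (C.smul_mem h2 _)

theorem pow_le_subfield {Kf : Subfield K} {N : Submodule k K} (h : ∀ m ∈ N, m ∈ Kf) (j : ℕ)
    (hj : 1 ≤ j) : ∀ m ∈ N ^ j, m ∈ Kf := by
  induction j, hj using Nat.le_induction with
  | base => rw [pow_one]; exact h
  | succ j _ ih =>
    intro m hm'
    rw [pow_succ] at hm'
    induction hm' using Submodule.mul_induction_on' with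
    | mem_mul_mem x hx y hy => exact Kf.mul_mem (ih x hx) (h y hy)
    | add x _ y _ hx hy => exact Kf.add_mem hx hy

theorem exp_up {T : Type} {C : T → Subalgebra k (LP K)} {H : T → K} {ρ : ℕ}
    (h : AtlasG P M₀ Kf ρ C H) {t t' : T} {x : K} {n M : ℕ} (hn : n ≤ M)
    (hx : hm 0 ((H t / H t') ^ n * x) ∈ C t') : hm 0 ((H t / H t') ^ M * x) ∈ C t' := by
  obtain ⟨e, he⟩ := Nat.exists_eq_add_of_le hn
  have h3 : hm 0 ((H t / H t') ^ M * x) =
      hm 0 (H t / H t') ^ e * hm 0 ((H t / H t') ^ n * x) := by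
    rw [hm_pow, hm_mul, he]
    congr 1
    ring
  rw [h3]
  exact (C t').mul_mem ((C t').pow_mem (h.rt t' t) _) hx

theorem model_one [IsDomain k] [IsNoetherianRing k] (D0 : S_D0) (hFG : M₀.FG) (hP : P → ∀ m ∈ M₀, m ∈ Kf)
    {T : Type} [Finite T] {C : T → Subalgebra k (LP K)} {H : T → K}
    (h : AtlasG P M₀ Kf 1 C H) :
    ∃ (I : Type) (_ : Finite I) (z : I → K) (J : Set I), ModelG P M₀ Kf z J := by
  classical
  have : Fintype T := Fintype.ofFinite T
  have hd : ∀ t, Algebra.FiniteType k (d0 (C t)) ∧ IsRegularRing (d0 (C t)) := by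
    intro t
    obtain ⟨r, hr, hr1, u, hu0, hu, hu'⟩ := h.un t
    have hr' : r = 1 := by omega
    subst hr'
    exact D0 k K (C t) (h.ft t) (h.rg t) (h.gr t) u hu0 (by exact_mod_cast hu)
      (by exact_mod_cast hu')
  have hfg : ∀ t, ∃ G : Finset K, Algebra.adjoin k (G : Set K) = d0 (C t) := by
    intro t
    obtain ⟨G, hG⟩ := (Subalgebra.fg_iff_finiteType _).2 (hd t).1
    exact ⟨G, hG⟩
  choose G hG using hfg
  have hGm : ∀ t, ∀ x ∈ G t, hm 0 x ∈ C t := by
    intro t x hx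
    have : x ∈ d0 (C t) := by rw [← hG t]; exact Algebra.subset_adjoin hx
    exact this
  have h1 : ∀ p : (Σ t, {x // x ∈ G t}), ∃ n : ℕ,
      ∀ t, hm 0 ((H p.1 / H t) ^ n * p.2.1) ∈ C t := by
    rintro ⟨t, x, hx⟩
    choose m hm' using fun t' => h.gl t' t _ (hGm t x hx)
    refine ⟨Finset.univ.sup m, ?_⟩
    intro t'
    have h2 : m t' ≤ Finset.univ.sup m := Finset.le_sup (Finset.mem_univ t')
    apply exp_up h h2
    have h3 := hm' t'
    rw [hm_pow, hm_mul, mul_zero, zero_add] at h3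
    exact h3
  choose N hN using h1
  by_cases hPP : P
  · -- the additional coordinates
    obtain ⟨n, hn, hmo⟩ := h.mo hPP
    choose N0 hN0 using fun (p : Σ t, {x // x ∈ G t}) => (hmo p.1).2.2 p.2.1 (hGm p.1 p.2.1 p.2.2)
    choose N1 hN1 using fun t => (hmo t).2.2 1 (by rw [hm_one]; exact (C t).one_mem)
    let M : ℕ := Finset.univ.sup N + Finset.univ.sup N0 + Finset.univ.sup N1 + 1
    have hNM : ∀ p, N p ≤ M := fun p =>
      (Finset.le_sup (f := N) (Finset.mem_univ p)).trans (by omega)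
    have hN0M : ∀ p, N0 p ≤ M := fun p =>
      (Finset.le_sup (f := N0) (Finset.mem_univ p)).trans (by omega)
    have hN1M : ∀ t, N1 t ≤ M := fun t =>
      (Finset.le_sup (f := N1) (Finset.mem_univ t)).trans (by omega)
    have hnM : 1 ≤ n * M := Nat.mul_pos hn (by omega)
    obtain ⟨L, hL⟩ := hFG.pow (n * M)
    have hLm : ∀ l ∈ L, l ∈ M₀ ^ (n * M) := fun l hl => by
      rw [← hL]; exact Submodule.subset_span hl
    have h5 : ∀ l : {l // l ∈ L}, ∀ t, ∃ s : k, s ≠ 0 ∧ hm 0 (s • (l.1 / H t ^ M)) ∈ C t := by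
      intro l t
      apply pow_div_mem (hmo t).2.1 M l.1
      rw [← pow_mul]
      exact hLm l.1 l.2
    choose s hs0 hs using h5
    let S : k := ∏ l : {l // l ∈ L}, ∏ t, s l t
    have hS0 : S ≠ 0 := Finset.prod_ne_zero_iff.mpr fun l _ =>
      Finset.prod_ne_zero_iff.mpr fun t _ => hs0 l t
    have hSd : ∀ l t, s l t ∣ S := fun l t =>
      (Finset.dvd_prod_of_mem (fun t => s l t) (Finset.mem_univ t)).trans
        (Finset.dvd_prod_of_mem (fun l => ∏ t, s l t) (Finset.mem_univ l))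
    refine model_core h (fun t => (hd t).2) G hG M (fun p t => exp_up h (hNM p) (hN p t))
      (L.image fun l => S • l) ?_ ?_ ?_
    · intro l' hl'
      obtain ⟨l, hl, rfl⟩ := Finset.mem_image.mp hl'
      exact pow_le_subfield (hP hPP) (n * M) hnM _ (Submodule.smul_mem _ _ (hLm l hl))
    · intro l' hl' t
      obtain ⟨l, hl, rfl⟩ := Finset.mem_image.mp hl'
      obtain ⟨c, hc⟩ := hSd ⟨l, hl⟩ t
      have e : hm 0 (S • l / H t ^ M) = c • hm 0 (s ⟨l, hl⟩ t • (l / H t ^ M)) := by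
        rw [smul_hm, smul_smul, mul_comm c, ← hc, smul_div_assoc]
      rw [e]
      exact (C t).smul_mem (hs ⟨l, hl⟩ t) c
    · intro _
      refine ⟨n * M, hnM, ?_, ?_, ?_, ?_⟩
      · intro t
        have := hN1 t M (hN1M t)
        rwa [mul_one] at this
      · intro p
        exact hN0 p M (hN0M p)
      · intro l' hl'
        obtain ⟨l, hl, rfl⟩ := Finset.mem_image.mp hl'
        exact ⟨1, one_ne_zero, by
          rw [one_smul]; exact Submodule.smul_mem _ _ (hLm l hl)⟩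
      · intro m hm'
        refine ⟨S, hS0, ?_⟩
        rw [← hL] at hm'
        induction hm' using Submodule.span_induction with
        | mem x hx =>
          apply Submodule.subset_span
          rw [Finset.coe_image]
          exact ⟨x, hx, rfl⟩
        | zero => rw [smul_zero]; exact Submodule.zero_mem _
        | add x y _ _ hx hy => rw [smul_add]; exact Submodule.add_mem _ hx hy
        | smul c x _ hx => rw [smul_comm]; exact Submodule.smul_mem _ _ hx
  · let M : ℕ := Finset.univ.sup N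
    have hNM : ∀ p, N p ≤ M := fun p => Finset.le_sup (f := N) (Finset.mem_univ p)
    exact model_core h (fun t => (hd t).2) G hG M (fun p t => exp_up h (hNM p) (hN p t)) ∅
      (by simp) (by simp) (fun h' => absurd h' hPP)

theorem not_atlas_zero {T : Type} {C : T → Subalgebra k (LP K)} {H : T → K}
    (h : AtlasG P M₀ Kf 0 C H) : False := by
  obtain ⟨t, -⟩ := h.cv ⊤ (fun _ => trivial)
  obtain ⟨r, hr, hr0, -⟩ := h.un t
  omega

end model

/-- An atlas gives a model. -/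
theorem t_MODEL : S_ASTEP → S_D0 → S_MODEL := by
  intro hA hD k K _ _ _ _ _ hinj P M₀ hFG Kf hP ρ
  induction ρ with
  | zero =>
    intro T _ C H h
    exact (not_atlas_zero h).elim
  | succ ρ ih =>
    intro T _ C H h
    rcases Nat.eq_zero_or_pos ρ with rfl | hρ
    · exact model_one hD hFG hP h
    · obtain ⟨T', hT', C', H', h'⟩ := hA k K hinj P M₀ Kf (ρ + 1) (by omega) T C H h
      exact ih T' C' H' h'

end Pool.Agent.Y349.G
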